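import Pool.Agent.H71.Diam.PairD

/-! DIAM-21 (helper71). -/

set_option autoImplicit false

namespace Pool.Agent.H71.Diam

open Finset Pool.Agent.H30.Diam

section
variable {V : Type} [DecidableEq V]

/-- distance of two witnesses from the leftovers -/
theorem dist_id (F G D W W' : Finset V) (hW : Disjoint W W') (h1 : Disjoint (F \ W) W')
    (h2 : Disjoint (G \ W') W) (h3 : Disjoint D W) (h4 : Disjoint D W') :
    (symmDiff (symmDiff F G) D).card + (F \ W).card + (G \ W').card =
      F.card + G.card + (symmDiff (symmDiff (F \ W) (G \ W')) D).card := by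
  have a1 : F.card = (F ∩ W).card + (F \ W).card := by
    rw [add_comm]
    exact (Finset.card_sdiff_add_card_inter F W).symm
  have a2 : G.card = (G ∩ W').card + (G \ W').card := by
    rw [add_comm]
    exact (Finset.card_sdiff_add_card_inter G W').symm
  have a3 : symmDiff (symmDiff F G) D =
      ((F ∩ W) ∪ (G ∩ W')) ∪ symmDiff (symmDiff (F \ W) (G \ W')) D := by
    ext z
    have k1 : z ∈ W → z ∉ W' := fun h h' => Finset.disjoint_left.1 hW h h'
    have k2 : z ∈ F → z ∉ W → z ∉ W' := fun h h' h'' =>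
      Finset.disjoint_left.1 h1 (Finset.mem_sdiff.2 ⟨h, h'⟩) h''
    have k3 : z ∈ G → z ∉ W' → z ∉ W := fun h h' h'' =>
      Finset.disjoint_left.1 h2 (Finset.mem_sdiff.2 ⟨h, h'⟩) h''
    have k4 : z ∈ D → z ∉ W := fun h h' => Finset.disjoint_left.1 h3 h h'
    have k5 : z ∈ D → z ∉ W' := fun h h' => Finset.disjoint_left.1 h4 h h'
    clear h1 h2 h3 h4 hW a1 a2
    simp only [Finset.mem_symmDiff, Finset.mem_union, Finset.mem_inter, Finset.mem_sdiff]
    by_cases w1 : z ∈ W <;> by_cases w2 : z ∈ W' <;> by_cases w3 : z ∈ F <;>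
      by_cases w4 : z ∈ G <;> by_cases w5 : z ∈ D <;>
      simp only [w1, w2, w3, w4, w5, not_true_eq_false, not_false_eq_true, true_implies,
        false_implies, imp_false, and_true, and_false, true_and, false_and, or_true, or_false,
        true_or, false_or] at k1 k2 k3 k4 k5 ⊢
  have a4 : (symmDiff (symmDiff F G) D).card = (F ∩ W).card + (G ∩ W').card +
      (symmDiff (symmDiff (F \ W) (G \ W')) D).card := by
    rw [a3, Finset.card_union_of_disjoint, Finset.card_union_of_disjoint]
    · rw [Finset.disjoint_left]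
      intro z hz hz'
      rw [Finset.mem_inter] at hz hz'
      exact Finset.disjoint_left.1 hW hz.2 hz'.2
    · rw [Finset.disjoint_left]
      intro z hz hz'
      have k1 : z ∈ W → z ∉ W' := fun h h' => Finset.disjoint_left.1 hW h h'
      have k2 : z ∈ F → z ∉ W → z ∉ W' := fun h h' h'' =>
        Finset.disjoint_left.1 h1 (Finset.mem_sdiff.2 ⟨h, h'⟩) h''
      have k3 : z ∈ G → z ∉ W' → z ∉ W := fun h h' h'' =>
        Finset.disjoint_left.1 h2 (Finset.mem_sdiff.2 ⟨h, h'⟩) h''
      have k4 : z ∈ D → z ∉ W := fun h h' => Finset.disjoint_left.1 h3 h h'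
      have k5 : z ∈ D → z ∉ W' := fun h h' => Finset.disjoint_left.1 h4 h h'
      clear h1 h2 h3 h4 hW a1 a2 a3
      simp only [Finset.mem_symmDiff, Finset.mem_union, Finset.mem_inter, Finset.mem_sdiff] at hz hz'
      by_cases w1 : z ∈ W <;> by_cases w2 : z ∈ W' <;> by_cases w3 : z ∈ F <;>
        by_cases w4 : z ∈ G <;> by_cases w5 : z ∈ D <;>
        simp only [w1, w2, w3, w4, w5, not_true_eq_false, not_false_eq_true, true_implies,
          false_implies, imp_false, and_true, and_false, true_and, false_and, or_true, or_false,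
          true_or, false_or, or_self] at k1 k2 k3 k4 k5 hz hz'
  omega

end

theorem eps_two : eps 2 / 5 ≤ tau := by
  unfold eps tau
  norm_num

section
variable {V : Type} [Fintype V] [DecidableEq V]

theorem tail_use (h7 : S_tail) {d m : ℕ} {q : ℝ} (hP : Par d m q) (hV : Fintype.card V = m)
    {𝓐 : Finset (Finset V)} {i : ℕ} (hi : i ≤ 1) {G : Finset (Finset V)}
    (hG : G ⊆ lev 𝓐 (d + 2 * i)) (hc : tau * U d m ≤ G.card) :
    G.Nonempty ∧ Ev q (fun W : Finset V => ind (2 * i + 1 < (lo G W).card)) ≤ q := by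
  have hd := hP.d1
  have h := h7 d m q hP V hV 2 i G (by omega) (fun F hF => (B32.lev_mem.1 (hG hF)).2) (by
    refine le_trans ?_ hc
    apply mul_le_mul_of_nonneg_right _ (by unfold U; positivity)
    have := eps_two
    norm_num
    exact this)
  rw [show (2 + i) / 200 = 0 by omega, add_zero] at h
  exact h

/-- the probability that in addition the leftover is small -/
theorem ev_and {q : ℝ} (h0 : 0 ≤ q) (h1 : q ≤ 1) (G : Finset (Finset V)) (k : ℕ)
    (h : Ev q (fun W : Finset V => ind (k < (lo G W).card)) ≤ q) (p : Finset V → Prop) :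
    Ev q (fun W => ind (p W)) - q ≤ Ev q (fun W => ind (p W ∧ (lo G W).card ≤ k)) := by
  have h2 : Ev q (fun W => ind (p W)) ≤ Ev q (fun W : Finset V =>
      ind (p W ∧ (lo G W).card ≤ k) + ind (k < (lo G W).card)) := by
    apply B32.Ev_mono h0 h1
    intro W
    by_cases hk : k < (lo G W).card
    · rw [B32.ind_pos hk]
      have := B32.ind_nonneg (p W ∧ (lo G W).card ≤ k)
      have := B32.ind_le_one (p W)
      linarith
    · rw [B32.ind_neg hk, add_zero]
      exact B32.ind_mono (fun hp => ⟨hp, not_lt.1 hk⟩)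
  rw [B32.Ev_add] at h2
  linarith

theorem samp (h20 : S_pairD) (h7 : S_tail) : S_samp := by
  intro d m q hP V _ _ hV 𝓐 𝓑 D hC i j G B J p₁ p₂ hi hj hG hB hcG hcB hJ hp
  have hq0 := hP.q0
  have hq1 : q ≤ 1 / 10 ^ 15 := hP.q1
  have hq2 : q ≤ 1 / 4 := hq1.trans (by norm_num)
  have hq3 : q ≤ 1 := hq2.trans (by norm_num)
  obtain ⟨hGn, hGt⟩ := tail_use h7 hP hV hi hG hcG
  obtain ⟨hBn, hBt⟩ := tail_use h7 hP hV hj hB hcB
  have hi3 : 2 * i + 1 ≤ 3 := by omega
  have hj3 : 2 * j + 1 ≤ 3 := by omega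
  have hi3' : ((2 * i + 1 : ℕ) : ℝ) ≤ 3 := by exact_mod_cast hi3
  have hj3' : ((2 * j + 1 : ℕ) : ℝ) ≤ 3 := by exact_mod_cast hj3
  -- the size of `D`
  have hD : D.card ≤ 25 := by
    have t1 : Ev q (fun _ : Finset V => ind True) = 1 := by
      have : (fun _ : Finset V => ind True) = fun _ : Finset V => (1 : ℝ) := by
        funext W; exact B32.ind_pos trivial
      rw [this]; exact B32.Ev_const 1
    have x1 := ev_and hq0.le hq3 G (2 * i + 1) hGt (fun _ => True)
    have y1 := ev_and hq0.le hq3 B (2 * j + 1) hBt (fun _ => True)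
    rw [t1] at x1 y1
    obtain ⟨W, W', hWW, hp1, hp2, hcr, hDD⟩ := h20 V q hq0 hq2 G B D
      (fun W => True ∧ (lo G W).card ≤ 2 * i + 1) (fun W => True ∧ (lo B W).card ≤ 2 * j + 1)
      (2 * i + 1) (2 * j + 1) 0 (D.card / 8) (1 - q) (1 - q) x1 (fun W h => h.2) y1
      (fun W h => h.2) (by
        have e1 : 2 * q * (D.card : ℝ) / (((D.card / 8 : ℕ) : ℝ) + 1) ≤ 16 * q := by
          rw [div_le_iff₀ (by positivity)]
          have e2 : D.card ≤ 8 * (D.card / 8 + 1) := by omega
          have e3 : (D.card : ℝ) ≤ 8 * (((D.card / 8 : ℕ) : ℝ) + 1) := by exact_mod_cast e2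
          nlinarith
        have e4 : 2 * q * (((2 * i + 1 : ℕ) : ℝ) + ((2 * j + 1 : ℕ) : ℝ)) / (((0 : ℕ) : ℝ) + 1) ≤
            12 * q := by
          rw [Nat.cast_zero, zero_add, div_one]
          nlinarith
        have e5 : 30 * q < 1 := by
          have : 30 * q ≤ 30 * (1 / 10 ^ 15) := by linarith
          refine lt_of_le_of_lt this (by norm_num)
        linarith)
    have hGF := hG (wit_mem hGn W)
    have hBF := hB (wit_mem hBn W')
    rw [B32.lev_mem] at hGF hBF
    have hdist := hC.dist _ hGF.1 _ hBF.1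
    have c1 := B32.card_symmDiff (wit G W) (wit B W')
    have c2 := B32.card_symmDiff (symmDiff (wit G W) (wit B W')) D
    have c3 := B32.inter_cover (B := G) (C := B) hWW
    have c4 : (lo G W ∩ lo B W').card ≤ 3 :=
      (Finset.card_le_card Finset.inter_subset_left).trans (hp1.2.trans hi3)
    have c5 : (symmDiff (wit G W) (wit B W') ∩ D).card ≤
        (D ∩ W).card + (D ∩ W').card + (lo G W).card + (lo B W').card := by
      have hsub : symmDiff (wit G W) (wit B W') ∩ D ⊆
          (((D ∩ W) ∪ (D ∩ W')) ∪ lo G W) ∪ lo B W' := by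
        intro z hz
        rw [Finset.mem_inter, Finset.mem_symmDiff] at hz
        obtain ⟨h, hzD⟩ := hz
        by_cases w1 : z ∈ W
        · exact Finset.mem_union_left _ (Finset.mem_union_left _ (Finset.mem_union_left _
            (Finset.mem_inter.2 ⟨hzD, w1⟩)))
        · by_cases w2 : z ∈ W'
          · exact Finset.mem_union_left _ (Finset.mem_union_left _ (Finset.mem_union_right _
              (Finset.mem_inter.2 ⟨hzD, w2⟩)))
          · rcases h with ⟨hg, _⟩ | ⟨hb, _⟩
            · exact Finset.mem_union_left _ (Finset.mem_union_right _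
                (Finset.mem_sdiff.2 ⟨hg, w1⟩))
            · exact Finset.mem_union_right _ (Finset.mem_sdiff.2 ⟨hb, w2⟩)
      calc _ ≤ _ := Finset.card_le_card hsub
        _ ≤ _ := (Finset.card_union_le _ _).trans (Nat.add_le_add_right
          ((Finset.card_union_le _ _).trans (Nat.add_le_add_right (Finset.card_union_le _ _) _)) _)
    have c6 := hp1.2
    have c7 := hp2.2
    omega
  -- the pair
  have x1 := ev_and hq0.le hq3 G (2 * i + 1) hGt p₁
  have y1 := ev_and hq0.le hq3 B (2 * j + 1) hBt p₂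
  obtain ⟨W, W', hWW, hp1, hp2, hcr, hDD⟩ := h20 V q hq0 hq2 G B (D ∪ J)
    (fun W => p₁ W ∧ (lo G W).card ≤ 2 * i + 1) (fun W => p₂ W ∧ (lo B W).card ≤ 2 * j + 1)
    (2 * i + 1) (2 * j + 1) 0 0 (Ev q (fun W => ind (p₁ W)) - q) (Ev q (fun W => ind (p₂ W)) - q)
    x1 (fun W h => h.2) y1 (fun W h => h.2) (by
      have e2 : (D ∪ J).card ≤ 35 := (Finset.card_union_le _ _).trans (by omega)
      have e3 : ((D ∪ J).card : ℝ) ≤ 35 := by exact_mod_cast e2
      have e1 : 2 * q * ((D ∪ J).card : ℝ) / (((0 : ℕ) : ℝ) + 1) ≤ 70 * q := by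
        rw [Nat.cast_zero, zero_add, div_one]
        nlinarith
      have e4 : 2 * q * (((2 * i + 1 : ℕ) : ℝ) + ((2 * j + 1 : ℕ) : ℝ)) / (((0 : ℕ) : ℝ) + 1) ≤
          12 * q := by
        rw [Nat.cast_zero, zero_add, div_one]
        nlinarith
      linarith)
  have hGF := hG (wit_mem hGn W)
  have hBF := hB (wit_mem hBn W')
  rw [B32.lev_mem] at hGF hBF
  have hdist := hC.dist _ hGF.1 _ hBF.1
  have z1 : lo G W ∩ W' = ∅ := by
    rw [← Finset.card_eq_zero]; omega
  have z2 : lo B W' ∩ W = ∅ := by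
    rw [← Finset.card_eq_zero]; omega
  have z3 : (D ∪ J) ∩ W = ∅ := by
    rw [← Finset.card_eq_zero]; omega
  have z4 : (D ∪ J) ∩ W' = ∅ := by
    rw [← Finset.card_eq_zero]; omega
  have d1 : Disjoint (lo G W) W' := Finset.disjoint_iff_inter_eq_empty.2 z1
  have d2 : Disjoint (lo B W') W := Finset.disjoint_iff_inter_eq_empty.2 z2
  have d3 : Disjoint (D ∪ J) W := Finset.disjoint_iff_inter_eq_empty.2 z3
  have d4 : Disjoint (D ∪ J) W' := Finset.disjoint_iff_inter_eq_empty.2 z4
  rw [Finset.disjoint_union_left] at d3 d4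
  refine ⟨W, W', hWW, hp1.1, hp2.1, hp1.2, hp2.2, d1, d2, d3.2, d4.2, ?_⟩
  have hid := dist_id (wit G W) (wit B W') D W W' hWW d1 d2 d3.1 d4.1
  have e1 : (lo G W).card = (wit G W \ W).card := rfl
  have e2 : (lo B W').card = (wit B W' \ W').card := rfl
  have e3 : (symmDiff (symmDiff (lo G W) (lo B W')) D).card =
      (symmDiff (symmDiff (wit G W \ W) (wit B W' \ W')) D).card := rfl
  omega

end

end Pool.Agent.H71.Diam
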