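import Pool.Agent.H30.Diam.Stubs2
import Pool.Agent.H30.Diam.Basic32
import Pool.Agent.H36.Diam.Cross

/-! DIAM-20 (helper71). -/

set_option autoImplicit false

namespace Pool.Agent.H71.Diam

open Finset Pool.Agent.H30.Diam Pool.Agent.H30.Diam.Basics

theorem EL_mem {α : Type} [DecidableEq α] (q : ℝ) (z : α) : ∀ l : List α, l.Nodup → z ∈ l →
    EL q l (fun W => ind (z ∈ W)) = q := by
  intro l
  induction l with
  | nil => intro _ h; simp at h
  | cons a l ih =>
    intro hnd hz
    have hnd' := List.nodup_cons.1 hnd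
    simp only [EL]
    by_cases haz : a = z
    · subst haz
      have e1 : EL q l (fun W => ind (a ∈ W)) = 0 := by
        rw [B32.EL_congr l (fun W => ind (a ∈ W)) (fun _ => 0) (by
          intro W hW
          exact B32.ind_neg (fun h => hnd'.1 (List.mem_toFinset.1 (hW h))))]
        exact EL_const q l 0
      have e2 : EL q l (fun W => ind (a ∈ insert a W)) = 1 := by
        rw [B32.EL_congr l (fun W => ind (a ∈ insert a W)) (fun _ => 1) (by
          intro W _
          exact B32.ind_pos (Finset.mem_insert_self a W))]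
        exact EL_const q l 1
      rw [e1, e2]
      ring
    · have hzl : z ∈ l := by
        rcases List.mem_cons.1 hz with h | h
        · exact absurd h.symm haz
        · exact h
      have e1 := ih hnd'.2 hzl
      have e2 : EL q l (fun W => ind (z ∈ insert a W)) = q := by
        refine (B32.EL_congr l _ (fun W => ind (z ∈ W)) ?_).trans e1
        intro W _
        show ind (z ∈ insert a W) = ind (z ∈ W)
        congr 1
        rw [Finset.mem_insert]
        exact propext ⟨fun h => h.resolve_left (fun h' => haz h'.symm), Or.inr⟩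
      rw [e1, e2]
      ring

theorem Ev_mem {V : Type} [Fintype V] [DecidableEq V] (q : ℝ) (z : V) :
    Ev q (fun W : Finset V => ind (z ∈ W)) = q :=
  EL_mem q z _ (Finset.nodup_toList _) (Finset.mem_toList.2 (Finset.mem_univ z))

theorem Ev_card_inter {V : Type} [Fintype V] [DecidableEq V] (q : ℝ) (D : Finset V) :
    Ev q (fun W : Finset V => ((D ∩ W).card : ℝ)) = q * D.card := by
  have h : (fun W : Finset V => ((D ∩ W).card : ℝ)) = fun W => ∑ z ∈ D, ind (z ∈ W) := by
    funext W
    rw [Finset.inter_comm, B32.card_inter_eq_sum_ind]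
  rw [h, B32.Ev_sum]
  rw [Finset.sum_congr rfl (fun z _ => Ev_mem q z), Finset.sum_const, nsmul_eq_mul]
  ring

theorem pairD : S_pairD := by
  classical
  intro V _ _ q h0 h1 G B D p₁ p₂ wG wB e eD x y hx hG hy hB hlt
  set a : Finset V → Finset V := fun W => if p₁ W then lo G W else ∅ with ha
  set b : Finset V → Finset V := fun W => if p₂ W then lo B W else ∅ with hb
  have had : ∀ W, Disjoint (a W) W := by
    intro W; simp only [ha]; split_ifs
    · exact lo_disj G W
    · exact Finset.disjoint_empty_left _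
  have hbd : ∀ W, Disjoint (b W) W := by
    intro W; simp only [hb]; split_ifs
    · exact lo_disj B W
    · exact Finset.disjoint_empty_left _
  have haw : ∀ W, (a W).card ≤ wG := by
    intro W; simp only [ha]; split_ifs with h
    · exact hG W h
    · simp
  have hbw : ∀ W, (b W).card ≤ wB := by
    intro W; simp only [hb]; split_ifs with h
    · exact hB W h
    · simp
  have c1 := (Cross.cross V q h0 h1 a wG had haw).1
  have c2 := (Cross.cross V q h0 h1 b wB hbd hbw).2
  have he : (0 : ℝ) < (e : ℝ) + 1 := by positivity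
  have heD : (0 : ℝ) < (eD : ℝ) + 1 := by positivity
  set f : Finset V → Finset V → ℝ := fun W W' =>
    (((1 - ind (p₁ W)) + (1 - ind (p₂ W'))) +
      (((a W ∩ W').card : ℝ) + ((b W' ∩ W).card : ℝ)) * ((e : ℝ) + 1)⁻¹) +
      (((D ∩ W).card : ℝ) + ((D ∩ W').card : ℝ)) * ((eD : ℝ) + 1)⁻¹ with hf
  have hD : Dv q f = (((1 - Ev q (fun W => ind (p₁ W))) + (1 - Ev q (fun W => ind (p₂ W)))) +
      (Dv q (fun W W' => ((a W ∩ W').card : ℝ)) + Dv q (fun W W' => ((b W' ∩ W).card : ℝ))) *
        ((e : ℝ) + 1)⁻¹) + (q * D.card + q * D.card) * ((eD : ℝ) + 1)⁻¹ := by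
    simp only [hf]
    rw [Dv_add, Dv_add, Dv_add, Dv_sub, Dv_sub, Dv_const, Dv_mul_right, Dv_add, Dv_mul_right, Dv_add]
    have l1 := Dv_left q (fun W : Finset V => ind (p₁ W))
    have l2 := Dv_right q (fun W : Finset V => ind (p₂ W))
    have l3 := Dv_left q (fun W : Finset V => ((D ∩ W).card : ℝ))
    have l4 := Dv_right q (fun W : Finset V => ((D ∩ W).card : ℝ))
    rw [l1, l2, l3, l4, Ev_card_inter]
  have hlt' : Dv q f < 1 := by
    rw [hD]
    have t1 : (Dv q (fun W W' => ((a W ∩ W').card : ℝ)) + Dv q (fun W W' => ((b W' ∩ W).card : ℝ))) *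
        ((e : ℝ) + 1)⁻¹ ≤ 2 * q * (wG + wB) / (e + 1) := by
      rw [div_eq_mul_inv]
      refine mul_le_mul_of_nonneg_right ?_ (by positivity)
      linarith
    have t2 : (q * D.card + q * D.card) * ((eD : ℝ) + 1)⁻¹ = 2 * q * D.card / (eD + 1) := by
      rw [div_eq_mul_inv]
      ring
    rw [t2]
    linarith
  obtain ⟨W, W', hd, hfW⟩ := Dv_exists_lt h0.le (by linarith) f 1 hlt'
  simp only [hf] at hfW
  have n1 : 0 ≤ 1 - ind (p₁ W) := by linarith [ind_le_one (p₁ W)]
  have n2 : 0 ≤ 1 - ind (p₂ W') := by linarith [ind_le_one (p₂ W')]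
  have n3 : 0 ≤ (((a W ∩ W').card : ℝ) + ((b W' ∩ W).card : ℝ)) * ((e : ℝ) + 1)⁻¹ := by positivity
  have n4 : 0 ≤ (((D ∩ W).card : ℝ) + ((D ∩ W').card : ℝ)) * ((eD : ℝ) + 1)⁻¹ := by positivity
  have hp1 : p₁ W := by
    by_contra hcon
    rw [ind_false hcon] at hfW
    linarith
  have hp2 : p₂ W' := by
    by_contra hcon
    rw [ind_false hcon] at hfW
    linarith
  refine ⟨W, W', hd, hp1, hp2, ?_, ?_⟩
  · have h3 : (((a W ∩ W').card : ℝ) + ((b W' ∩ W).card : ℝ)) * ((e : ℝ) + 1)⁻¹ < 1 := by linarith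
    rw [← div_eq_mul_inv, div_lt_one he] at h3
    have e1 : a W = lo G W := by simp only [ha]; rw [if_pos hp1]
    have e2 : b W' = lo B W' := by simp only [hb]; rw [if_pos hp2]
    rw [e1, e2] at h3
    have h4 : (lo G W ∩ W').card + (lo B W' ∩ W).card < e + 1 := by exact_mod_cast h3
    omega
  · have h3 : (((D ∩ W).card : ℝ) + ((D ∩ W').card : ℝ)) * ((eD : ℝ) + 1)⁻¹ < 1 := by linarith
    rw [← div_eq_mul_inv, div_lt_one heD] at h3
    have h4 : (D ∩ W).card + (D ∩ W').card < eD + 1 := by exact_mod_cast h3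
    omega

end Pool.Agent.H71.Diam
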